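import Mathlib
import Pool.Agent.P8H13.NP.Pair
import Pool.Agent.P8H13.OP.Sets

/-!
# The upper bound sieve for intervals, and the second moment (helper13)
-/

set_option autoImplicit false

namespace Pool.Agent.P8H13.NT

open Finset Filter Topology
open Pool.Agent.Y843.HS (Th qq VV Wt Sv Pr)
open Pool.Agent.P8H13.CL (card_sets)
open Pool.Agent.P8H13.NP (modEq_prod mert2 Zp VV_le dvd_of_cls wt wt_sq sum_g)

theorem cntUg (𝒜 : Finset ℕ) (v : ℕ → ℕ) (X E : ℝ) (Z : ℕ → Finset ℕ) (U : Finset ℕ)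
    (hU : ∀ p ∈ U, p.Prime) (hZ : ∀ p ∈ U, ∀ c ∈ Z p, c < p)
    (hcls : ∀ c : ℕ, c < ∏ p ∈ U, p → |((𝒜.filter (fun y : ℕ => v y % (∏ p ∈ U, p) = c)).card : ℝ) -
      X / ((∏ p ∈ U, p : ℕ) : ℝ)| ≤ E) :
    |((𝒜.filter (fun y : ℕ => ∀ p ∈ U, v y % p ∈ Z p)).card : ℝ) -
      X * ∏ p ∈ U, (((Z p).card : ℝ) / p)| ≤ (∏ p ∈ U, ((Z p).card : ℝ)) * E := by
  classical
  obtain ⟨d, hd⟩ : ∃ d : ℕ, d = ∏ p ∈ U, p := ⟨_, rfl⟩
  have hd1 : 1 ≤ d := by
    rw [hd]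
    exact Nat.one_le_iff_ne_zero.2 (Finset.prod_ne_zero_iff.2 fun p hp => (hU p hp).ne_zero)
  have hd0 : (0 : ℝ) < d := by exact_mod_cast hd1
  rw [← hd] at hcls
  -- the classes
  have hcrt : ∀ f : (p : ℕ) → p ∈ U → ℕ, ∃ c : ℕ, c < d ∧ ∀ p (hp : p ∈ U), c ≡ f p hp [MOD p] := by
    intro f
    have h1 := Nat.chineseRemainderOfFinset (fun p => if hp : p ∈ U then f p hp else 0) (fun p => p) U
      (fun p hp => (hU p hp).ne_zero)
      (fun p hp p' hp' hne => (Nat.coprime_primes (hU p hp) (hU p' hp')).2 hne)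
    obtain ⟨k, hk⟩ := h1
    refine ⟨k % d, Nat.mod_lt _ (by omega), fun p hp => ?_⟩
    have h2 := hk p hp
    rw [dif_pos hp] at h2
    have h3 : k % d ≡ k [MOD p] := by
      have h4 : k % d ≡ k [MOD d] := Nat.mod_modEq _ _
      exact h4.of_dvd (by rw [hd]; exact Finset.dvd_prod_of_mem _ hp)
    exact h3.trans h2
  choose cf hcf1 hcf2 using hcrt
  obtain ⟨S, hS⟩ : ∃ S : Finset ℕ, S = 𝒜.filter (fun y : ℕ => ∀ p ∈ U, v y % p ∈ Z p) :=
    ⟨_, rfl⟩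
  rw [← hS]
  have hfib : S.card = ∑ f ∈ U.pi Z, (𝒜.filter (fun y : ℕ => v y % d = cf f)).card := by
    rw [card_eq_sum_card_fiberwise (f := fun y : ℕ => (fun (p : ℕ) (_ : p ∈ U) => v y % p))
      (t := U.pi Z) (by
        intro y hy
        rw [Finset.mem_coe, hS, mem_filter] at hy
        rw [Finset.mem_coe, Finset.mem_pi]
        exact hy.2)]
    apply sum_congr rfl
    intro f hf
    rw [Finset.mem_pi] at hf
    congr 1
    ext y
    rw [mem_filter, hS, mem_filter, mem_filter]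
    constructor
    · rintro ⟨⟨h1, h2⟩, h3⟩
      refine ⟨h1, ?_⟩
      have h4 : v y ≡ cf f [MOD d] := by
        rw [hd, modEq_prod U hU]
        intro p hp
        have h5 : v y % p = f p hp := congrFun (congrFun h3 p) hp
        have h6 : v y ≡ f p hp [MOD p] := by
          show _ % p = _ % p
          rw [h5, Nat.mod_eq_of_lt (hZ p hp _ (hf p hp))]
        exact h6.trans (hcf2 f p hp).symm
      have h5 : v y % d = cf f % d := h4
      rw [h5, Nat.mod_eq_of_lt (hcf1 f)]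
    · rintro ⟨h1, h2⟩
      have h4 : v y ≡ cf f [MOD d] := by
        show _ % d = _ % d
        rw [h2, Nat.mod_eq_of_lt (hcf1 f)]
      rw [hd, modEq_prod U hU] at h4
      have h5 : ∀ p (hp : p ∈ U), v y % p = f p hp := by
        intro p hp
        have h6 : v y % p = f p hp % p := (h4 p hp).trans (hcf2 f p hp)
        rw [h6, Nat.mod_eq_of_lt (hZ p hp _ (hf p hp))]
      refine ⟨⟨h1, fun p hp => ?_⟩, ?_⟩
      · rw [h5 p hp]
        exact hf p hp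
      · funext p hp
        exact h5 p hp
  have hmain : X * ∏ p ∈ U, (((Z p).card : ℝ) / p) = ∑ _f ∈ U.pi Z, X / d := by
    rw [sum_const, Finset.card_pi, nsmul_eq_mul, prod_div_distrib, hd]
    push_cast
    ring
  rw [hmain, hfib]
  push_cast
  rw [← sum_sub_distrib]
  refine (abs_sum_le_sum_abs _ _).trans ?_
  have h1 : ∀ f ∈ U.pi Z, |((𝒜.filter (fun y : ℕ => v y % d = cf f)).card : ℝ) - X / d| ≤
      E := fun f _ =>
    hcls (cf f) (hcf1 f)
  refine (sum_le_sum h1).trans ?_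
  rw [sum_const, Finset.card_pi, nsmul_eq_mul]
  push_cast
  exact le_rfl

/-- **upper bound sieve** -/
theorem siftg (r : ℕ) : ∃ C₀ : ℕ, 1 ≤ C₀ ∧ ∀ J : ℕ, C₀ ≤ J → ∀ z R : ℕ, z = 2 ^ 2 ^ C₀ → R = 2 ^ 2 ^ J →
    ∀ Z : ℕ → Finset ℕ, Sv r z R Z → ∀ (𝒜 : Finset ℕ) (v : ℕ → ℕ) (X E : ℝ), 0 ≤ X → 0 ≤ E →
    (∀ d : ℕ, 1 ≤ d → d ≤ R ^ C₀ → ∀ c : ℕ, c < d →
      |((𝒜.filter (fun y : ℕ => v y % d = c)).card : ℝ) - X / d| ≤ E) →
      ((𝒜.filter (fun y : ℕ => ∀ p ∈ Pr z R, v y % p ∉ Z p)).card : ℝ) ≤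
        C₀ * (X * VV Z z R) + (R : ℝ) ^ (2 * C₀) * E := by
  classical
  obtain ⟨C₀, hC₀, hTH⟩ := Pool.Agent.Y257.HS.s_TH r
  refine ⟨C₀, hC₀, fun J hJ z R hz hR Z hZ 𝒜 v X E hX hE hcls => ?_⟩
  obtain ⟨θ, hθ⟩ := hTH C₀ J le_rfl hJ Z (by
    rw [← hz, ← hR]
    exact hZ)
  rw [← hz, ← hR] at hθ
  have hPrp : ∀ p ∈ Pr z R, p.Prime := by
    intro p hp
    unfold Pr at hp
    exact (mem_filter.1 hp).2
  have hle : ((𝒜.filter (fun y : ℕ => ∀ p ∈ Pr z R, v y % p ∉ Z p)).card : ℝ) ≤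
      ∑ y ∈ 𝒜, Th Z z R θ (v y) := by
    rw [card_filter]
    push_cast
    apply sum_le_sum
    intro y hy
    split_ifs with hp
    · have h2 : (Pr z R).powerset.filter (fun U => ∀ p ∈ U, v y % p ∈ Z p) = {∅} := by
        ext U
        rw [mem_filter, mem_powerset, Finset.mem_singleton]
        constructor
        · rintro ⟨h3, h4⟩
          by_contra hne
          obtain ⟨p, hp1⟩ := Finset.nonempty_iff_ne_empty.2 hne
          exact hp p (h3 hp1) (h4 p hp1)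
        · rintro rfl
          exact ⟨empty_subset _, fun p hp => absurd hp (Finset.notMem_empty p)⟩
      unfold Th
      rw [h2, sum_singleton, hθ.one]
    · exact hθ.nonneg _
  refine hle.trans ?_
  have hex : ∑ y ∈ 𝒜, Th Z z R θ (v y) =
      ∑ U ∈ (Pr z R).powerset, θ U *
        ((𝒜.filter (fun y : ℕ => ∀ p ∈ U, v y % p ∈ Z p)).card : ℝ) := by
    unfold Th
    simp only [sum_filter]
    rw [sum_comm]
    apply sum_congr rfl
    intro U hU
    rw [card_filter]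
    push_cast
    rw [mul_sum]
    apply sum_congr rfl
    intro y _
    by_cases h3 : ∀ p ∈ U, v y % p ∈ Z p
    · rw [if_pos h3, if_pos h3, mul_one]
    · rw [if_neg h3, if_neg h3, mul_zero]
  rw [hex]
  have hsum : ∀ U ∈ (Pr z R).powerset, θ U *
      ((𝒜.filter (fun y : ℕ => ∀ p ∈ U, v y % p ∈ Z p)).card : ℝ) ≤
      X * (θ U * ∏ p ∈ U, (((Z p).card : ℝ) / p)) +
        (if ∏ p ∈ U, p ≤ R ^ C₀ then (R : ℝ) ^ C₀ * E else 0) := by
    intro U hU
    rw [mem_powerset] at hU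
    by_cases h1 : θ U = 0
    · rw [h1]
      split_ifs
      · simp only [zero_mul, mul_zero, zero_add]
        positivity
      · simp
    · have h2 := hθ.lev U hU h1
      rw [if_pos h2]
      have h3 : 1 ≤ ∏ p ∈ U, p := Nat.one_le_iff_ne_zero.2 (Finset.prod_ne_zero_iff.2 fun p hp =>
        (hPrp p (hU hp)).ne_zero)
      have h4 := cntUg 𝒜 v X E Z U (fun p hp => hPrp p (hU hp))
        (fun p hp => (hZ p (hU hp)).2) (fun c hc => hcls _ h3 h2 c hc)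
      have h6 : (∏ p ∈ U, ((Z p).card : ℝ)) ≤ (R : ℝ) ^ C₀ := by
        have h7 : (∏ p ∈ U, ((Z p).card : ℝ)) ≤ ((∏ p ∈ U, p : ℕ) : ℝ) := by
          push_cast
          apply Finset.prod_le_prod (fun p _ => Nat.cast_nonneg _)
          intro p hp
          have h7 : (Z p).card ≤ (range p).card := by
            apply card_le_card
            intro c hc
            exact mem_range.2 ((hZ p (hU hp)).2 c hc)
          rw [card_range] at h7
          exact_mod_cast h7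
        exact h7.trans (by exact_mod_cast h2)
      have h5 : θ U * (((𝒜.filter (fun y : ℕ => ∀ p ∈ U, v y % p ∈ Z p)).card : ℝ) -
          X * ∏ p ∈ U, (((Z p).card : ℝ) / p)) ≤ (R : ℝ) ^ C₀ * E := by
        refine (le_abs_self _).trans ?_
        rw [abs_mul]
        calc |θ U| * _ ≤ 1 * ((R : ℝ) ^ C₀ * E) :=
              mul_le_mul (hθ.abs U) (h4.trans (mul_le_mul_of_nonneg_right h6 hE)) (abs_nonneg _) zero_le_one
          _ = _ := one_mul _
      linarith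
  refine (sum_le_sum hsum).trans ?_
  rw [sum_add_distrib, ← mul_sum, ← sum_filter, sum_const, nsmul_eq_mul]
  have h1 : X * ∑ U ∈ (Pr z R).powerset, θ U * ∏ p ∈ U, (((Z p).card : ℝ) / p) ≤
      C₀ * (X * VV Z z R) := by
    have h2 : X * qq Z z R θ ≤ X * (C₀ * VV Z z R) := mul_le_mul_of_nonneg_left hθ.hi hX
    refine h2.trans (le_of_eq ?_)
    ring
  have h2 : ((((Pr z R).powerset).filter (fun U => ∏ p ∈ U, p ≤ R ^ C₀)).card : ℝ) ≤ (R : ℝ) ^ C₀ := by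
    exact_mod_cast card_sets z R (R ^ C₀)
  have h3 : ((((Pr z R).powerset).filter (fun U => ∏ p ∈ U, p ≤ R ^ C₀)).card : ℝ) *
      ((R : ℝ) ^ C₀ * E) ≤ (R : ℝ) ^ (2 * C₀) * E := by
    calc _ ≤ (R : ℝ) ^ C₀ * ((R : ℝ) ^ C₀ * E) := mul_le_mul_of_nonneg_right h2 (by positivity)
      _ = _ := by
          rw [two_mul, pow_add]
          ring
  exact add_le_add h1 h3

theorem cls_int (A L d c : ℕ) (hd : 1 ≤ d) (hc : c < d) :
    |(((Ico A (A + L)).filter (fun y : ℕ => y % d = c)).card : ℝ) - (L : ℝ) / d| ≤ 1 := by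
  have h1 : (Ico A (A + L)).filter (fun y : ℕ => y % d = c) = (Ico A (A + L)).filter (fun y : ℕ => y ≡ c [MOD d]) := by
    apply filter_congr
    intro y _
    show _ ↔ y % d = c % d
    rw [Nat.mod_eq_of_lt hc]
  rw [h1]
  have h2 := Nat.Ico_filter_modEq_card A (A + L) (show 0 < d from hd) c
  obtain ⟨x, hx⟩ : ∃ x : ℚ, x = (((A + L : ℕ) : ℚ) - c) / d := ⟨_, rfl⟩
  obtain ⟨y, hy⟩ : ∃ y : ℚ, y = (((A : ℕ) : ℚ) - c) / d := ⟨_, rfl⟩
  rw [← hx, ← hy] at h2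
  have hd0 : (0 : ℚ) < d := by exact_mod_cast hd
  have hxy : x - y = (L : ℚ) / d := by
    rw [hx, hy, ← sub_div]
    push_cast
    congr 1
    ring
  have hLd : (0 : ℚ) ≤ (L : ℚ) / d := by positivity
  have hle : ⌈y⌉ ≤ ⌈x⌉ := Int.ceil_le_ceil (by linarith)
  rw [max_eq_left (by linarith)] at h2
  have h3 := Int.le_ceil x
  have h4 := Int.ceil_lt_add_one x
  have h5 := Int.le_ceil y
  have h6 := Int.ceil_lt_add_one y
  have h7 : |((((Ico A (A + L)).filter (fun y : ℕ => y ≡ c [MOD d])).card : ℤ) : ℚ) - (L : ℚ) / d| ≤ 1 := by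
    rw [h2, abs_le]
    push_cast
    constructor <;> linarith
  have h8 : |((((Ico A (A + L)).filter (fun y : ℕ => y ≡ c [MOD d])).card : ℚ)) - (L : ℚ) / d| ≤ 1 := by
    have e : ((((Ico A (A + L)).filter (fun y : ℕ => y ≡ c [MOD d])).card : ℤ) : ℚ) =
      ((((Ico A (A + L)).filter (fun y : ℕ => y ≡ c [MOD d])).card : ℚ)) := by push_cast; rfl
    rw [← e]
    exact h7
  have h9 := (Rat.cast_le (K := ℝ)).2 h8
  push_cast at h9
  exact h9

/-- the choice of the sieving limit -/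
theorem choose (C₀ : ℕ) (hC₀ : 1 ≤ C₀) : ∃ L₀ : ℕ, ∀ L : ℕ, L₀ ≤ L → ∃ J : ℕ, C₀ ≤ J ∧
    2 ≤ 2 ^ 2 ^ J ∧ 2 ^ 2 ^ C₀ ≤ 2 ^ 2 ^ J ∧ 2 ^ 2 ^ J ≤ L ∧
    ((2 ^ 2 ^ J : ℕ) : ℝ) ^ (2 * C₀) ≤ (L : ℝ) ^ (1 / 2 : ℝ) ∧
    Real.log L / (8 * C₀) ≤ Real.log ((2 ^ 2 ^ J : ℕ) : ℝ) := by
  obtain ⟨z, hz⟩ : ∃ z : ℕ, z = 2 ^ 2 ^ C₀ := ⟨_, rfl⟩
  have hC₀r : (1 : ℝ) ≤ C₀ := by exact_mod_cast hC₀
  have hp : Tendsto (fun L : ℕ => (L : ℝ) ^ (1 / (4 * C₀ : ℝ))) atTop atTop :=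
    (tendsto_rpow_atTop (by positivity)).comp tendsto_natCast_atTop_atTop
  obtain ⟨L₁, hL₁⟩ := eventually_atTop.1 (hp.eventually_ge_atTop ((z : ℝ) + 2))
  refine ⟨L₁ + 3, fun L hL => ?_⟩
  have b1 := hL₁ L (by omega)
  have hL0 : (0 : ℝ) < L := by exact_mod_cast (by omega : 0 < L)
  have hL1 : (1 : ℝ) ≤ L := by exact_mod_cast (by omega : 1 ≤ L)
  obtain ⟨w, hw⟩ : ∃ w : ℝ, w = (L : ℝ) ^ (1 / (4 * C₀ : ℝ)) := ⟨_, rfl⟩
  rw [← hw] at b1
  have hz0 : (0 : ℝ) ≤ z := Nat.cast_nonneg z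
  have hexJ : ∃ J : ℕ, C₀ ≤ J ∧ ((2 ^ 2 ^ J : ℕ) : ℝ) ≤ w ∧ w < ((2 ^ 2 ^ (J + 1) : ℕ) : ℝ) := by
    have hub : ∃ J : ℕ, w < ((2 ^ 2 ^ J : ℕ) : ℝ) := by
      obtain ⟨n, hn⟩ := exists_nat_gt w
      refine ⟨n, lt_of_lt_of_le hn ?_⟩
      have h1 : n ≤ 2 ^ 2 ^ n := (Nat.lt_pow_self (by norm_num : 1 < 2)).le.trans
        ((Nat.lt_pow_self (by norm_num : 1 < 2)).le)
      exact_mod_cast h1
    obtain ⟨J', hJ', hmin⟩ : ∃ J', (w < ((2 ^ 2 ^ J' : ℕ) : ℝ)) ∧ ∀ j < J', ¬ (w < ((2 ^ 2 ^ j : ℕ) : ℝ)) :=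
      ⟨Nat.find hub, Nat.find_spec hub, fun j hj => Nat.find_min hub hj⟩
    have h1 : C₀ < J' := by
      by_contra h2
      push Not at h2
      have h3 : (2 ^ 2 ^ J' : ℕ) ≤ 2 ^ 2 ^ C₀ :=
        Nat.pow_le_pow_right (by norm_num) (Nat.pow_le_pow_right (by norm_num) h2)
      have h4 : ((2 ^ 2 ^ J' : ℕ) : ℝ) ≤ z := by
        rw [hz]
        exact_mod_cast h3
      linarith
    refine ⟨J' - 1, by omega, ?_, ?_⟩
    · exact not_lt.1 (hmin (J' - 1) (by omega))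
    · rw [Nat.sub_add_cancel (by omega)]
      exact hJ'
  obtain ⟨J, hJ1, hJ2, hJ3⟩ := hexJ
  obtain ⟨R, hR⟩ : ∃ R : ℕ, R = 2 ^ 2 ^ J := ⟨_, rfl⟩
  refine ⟨J, hJ1, ?_, Nat.pow_le_pow_right (by norm_num) (Nat.pow_le_pow_right (by norm_num) hJ1), ?_, ?_, ?_⟩
  · calc 2 = 2 ^ 1 := by norm_num
      _ ≤ 2 ^ 2 ^ J := Nat.pow_le_pow_right (by norm_num) (Nat.one_le_pow _ _ (by norm_num))
  all_goals rw [← hR] at hJ2 ⊢
  · have h1 : w ≤ (L : ℝ) ^ (1 : ℝ) := by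
      rw [hw]
      apply Real.rpow_le_rpow_of_exponent_le hL1
      rw [div_le_one (by positivity)]
      linarith
    rw [Real.rpow_one] at h1
    exact_mod_cast hJ2.trans h1
  · calc (R : ℝ) ^ (2 * C₀) ≤ w ^ (2 * C₀) := pow_le_pow_left₀ (Nat.cast_nonneg _) hJ2 _
      _ = (L : ℝ) ^ (1 / 2 : ℝ) := by
          rw [hw, ← Real.rpow_natCast, ← Real.rpow_mul hL0.le]
          congr 1
          push_cast
          field_simp
          norm_num
  · have hwR : w < (R : ℝ) ^ 2 := by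
      have e : ((2 ^ 2 ^ (J + 1) : ℕ) : ℝ) = (R : ℝ) ^ 2 := by
        rw [hR]
        push_cast
        rw [← pow_mul, pow_succ]
      rw [← e]
      exact hJ3
    have hw0 : 0 < w := by linarith
    have h1 := Real.log_le_log hw0 hwR.le
    rw [Real.log_pow, hw, Real.log_rpow hL0] at h1
    push_cast at h1
    have e : Real.log L / (8 * C₀) = (1 / (4 * C₀ : ℝ) * Real.log L) / 2 := by
      field_simp
      ring
    rw [e]
    linarith

/-- **pairs of primes in intervals** -/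
theorem pairI : ∃ C : ℝ, 0 < C ∧ ∃ L₀ : ℕ, ∀ L : ℕ, L₀ ≤ L → ∀ A : ℕ, L < A → ∀ j j' : ℕ, j < j' →
      (((Ico A (A + L)).filter (fun n : ℕ => (n + j).Prime ∧ (n + j').Prime)).card : ℝ) ≤
        C * (((j' - j : ℕ) : ℝ) / (j' - j).totient) * (L / Real.log L ^ 2) := by
  classical
  obtain ⟨C₀, hC₀, hs⟩ := siftg 2
  obtain ⟨L₁, hch⟩ := choose C₀ hC₀
  obtain ⟨c, hc, hm⟩ := mert2 (2 ^ 2 ^ C₀)
  have hC₀r : (1 : ℝ) ≤ C₀ := by exact_mod_cast hC₀
  have hlp : ∀ᶠ N : ℕ in atTop, Real.log N ^ 2 ≤ (N : ℝ) ^ (1 / 2 : ℝ) := by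
    have h1 : (fun x : ℝ => Real.log x) =o[atTop] (fun x : ℝ => x ^ (1 / 4 : ℝ)) :=
      isLittleO_log_rpow_atTop (by norm_num)
    have h2 := h1.bound (show (0 : ℝ) < 1 by norm_num)
    have h3 := tendsto_natCast_atTop_atTop.eventually h2
    filter_upwards [h3, eventually_ge_atTop 1] with N hN hN1
    have hN1' : (1 : ℝ) ≤ N := by exact_mod_cast hN1
    have hl : 0 ≤ Real.log N := Real.log_nonneg hN1'
    rw [Real.norm_of_nonneg hl, Real.norm_of_nonneg (Real.rpow_nonneg (by linarith) _), one_mul] at hN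
    have h4 : (N : ℝ) ^ (1 / 2 : ℝ) = ((N : ℝ) ^ (1 / 4 : ℝ)) ^ 2 := by
      rw [← Real.rpow_natCast, ← Real.rpow_mul (by linarith)]
      norm_num
    rw [h4]
    exact pow_le_pow_left₀ hl hN 2
  obtain ⟨L₂, hL₂⟩ := eventually_atTop.1 hlp
  refine ⟨C₀ * (c * (8 * C₀)) ^ 2 + 1, by positivity, L₁ + L₂ + 3, fun L hL A hA j j' hj => ?_⟩
  obtain ⟨J, hJ1, hR2, hzR, hRL, hRC, hlR⟩ := hch L (by omega)
  have b2 := hL₂ L (by omega)
  obtain ⟨R, hR⟩ : ∃ R : ℕ, R = 2 ^ 2 ^ J := ⟨_, rfl⟩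
  obtain ⟨z, hz⟩ : ∃ z : ℕ, z = 2 ^ 2 ^ C₀ := ⟨_, rfl⟩
  rw [← hR] at hR2 hzR hRL hRC hlR
  rw [← hz] at hzR hm
  have hL3 : (3 : ℝ) ≤ L := by exact_mod_cast (by omega : 3 ≤ L)
  have hL0 : (0 : ℝ) < L := by linarith
  have hlL : 0 < Real.log L := Real.log_pos (by linarith)
  have hPrp : ∀ p ∈ Pr z R, p.Prime ∧ p ≤ R := by
    intro p hp
    unfold Pr at hp
    rw [mem_filter, mem_Ioc] at hp
    exact ⟨hp.2, hp.1.2⟩
  have h1 := hs J hJ1 z R hz hR (Zp j j') (by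
    intro p hp
    refine ⟨?_, ?_⟩
    · unfold Zp
      exact card_le_two
    · intro c hc
      unfold Zp at hc
      rw [mem_insert, Finset.mem_singleton] at hc
      rcases hc with rfl | rfl
      · exact Nat.mod_lt _ (hPrp p hp).1.pos
      · exact Nat.mod_lt _ (hPrp p hp).1.pos) (Ico A (A + L)) (fun n => n) L 1 hL0.le zero_le_one
      (fun d hd _ c hc => cls_int A L d c hd hc)
  have h2 : ((Ico A (A + L)).filter (fun n : ℕ => (n + j).Prime ∧ (n + j').Prime)) ⊆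
      ((Ico A (A + L)).filter (fun y : ℕ => ∀ p ∈ Pr z R, y % p ∉ Zp j j' p)) := by
    intro y hy
    rw [mem_filter] at hy ⊢
    refine ⟨hy.1, fun p hp hmem => ?_⟩
    obtain ⟨hpp, hpR⟩ := hPrp p hp
    have hy1 := mem_Ico.1 hy.1
    unfold Zp at hmem
    rw [mem_insert, Finset.mem_singleton] at hmem
    rcases hmem with h3 | h3
    · have h4 := dvd_of_cls p hpp.pos _ _ h3
      have h5 := (Nat.prime_dvd_prime_iff_eq hpp hy.2.1).1 h4
      omega
    · have h4 := dvd_of_cls p hpp.pos _ _ h3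
      have h5 := (Nat.prime_dvd_prime_iff_eq hpp hy.2.2).1 h4
      omega
  have h3 : (((Ico A (A + L)).filter (fun n : ℕ => (n + j).Prime ∧ (n + j').Prime)).card : ℝ) ≤
      (((Ico A (A + L)).filter (fun y : ℕ => ∀ p ∈ Pr z R, y % p ∉ Zp j j' p)).card : ℝ) := by
    exact_mod_cast card_le_card h2
  refine h3.trans (h1.trans ?_)
  obtain ⟨g, hg⟩ : ∃ g : ℝ, g = ((j' - j : ℕ) : ℝ) / (j' - j).totient := ⟨_, rfl⟩
  have hg1 : 1 ≤ g := by
    rw [hg, one_le_div (by exact_mod_cast Nat.totient_pos.2 (by omega))]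
    exact_mod_cast Nat.totient_le _
  have hV := VV_le z R j j' hj
  rw [← hg] at hV ⊢
  have hP := hm R hR2 hzR
  have hP0 : 0 ≤ ∏ p ∈ Pr z R, (1 - 1 / (p : ℝ)) := by
    apply prod_nonneg
    intro p hp
    have h2 : (2 : ℝ) ≤ p := by exact_mod_cast (hPrp p hp).1.two_le
    rw [sub_nonneg, div_le_one (by linarith)]
    linarith
  have hlR0 : 0 < Real.log R := lt_of_lt_of_le (by positivity) hlR
  have hP2 : ∏ p ∈ Pr z R, (1 - 1 / (p : ℝ)) ≤ c * (8 * C₀) / Real.log L := by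
    refine hP.trans ?_
    have : c / Real.log R ≤ c / (Real.log L / (8 * C₀)) := div_le_div_of_nonneg_left hc.le (by positivity) hlR
    refine this.trans (le_of_eq ?_)
    field_simp
  have hP3 : (∏ p ∈ Pr z R, (1 - 1 / (p : ℝ))) ^ 2 ≤ (c * (8 * C₀) / Real.log L) ^ 2 := pow_le_pow_left₀ hP0 hP2 2
  have hV2 : VV (Zp j j') z R ≤ (c * (8 * C₀) / Real.log L) ^ 2 * g :=
    hV.trans (mul_le_mul_of_nonneg_right hP3 (by linarith))
  have h4 : C₀ * (L * VV (Zp j j') z R) ≤ C₀ * (c * (8 * C₀)) ^ 2 * g * (L / Real.log L ^ 2) := by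
    calc (C₀ : ℝ) * (L * VV (Zp j j') z R) ≤ C₀ * (L * ((c * (8 * C₀) / Real.log L) ^ 2 * g)) := by gcongr
      _ = _ := by
          field_simp
  have h5 : (R : ℝ) ^ (2 * C₀) * 1 ≤ g * (L / Real.log L ^ 2) := by
    have h6 : (L : ℝ) ^ (1 / 2 : ℝ) ≤ L / Real.log L ^ 2 := by
      rw [le_div_iff₀ (by positivity)]
      have h4 : (L : ℝ) = (L : ℝ) ^ (1 / 2 : ℝ) * (L : ℝ) ^ (1 / 2 : ℝ) := by
        rw [← Real.rpow_add hL0]
        norm_num
      calc (L : ℝ) ^ (1 / 2 : ℝ) * Real.log L ^ 2 ≤ (L : ℝ) ^ (1 / 2 : ℝ) * (L : ℝ) ^ (1 / 2 : ℝ) :=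
            mul_le_mul_of_nonneg_left b2 (by positivity)
        _ = L := h4.symm
    have h7 : 0 ≤ (L : ℝ) / Real.log L ^ 2 := by positivity
    nlinarith
  calc (C₀ : ℝ) * (L * VV (Zp j j') z R) + (R : ℝ) ^ (2 * C₀) * 1 ≤
      C₀ * (c * (8 * C₀)) ^ 2 * g * (L / Real.log L ^ 2) + g * (L / Real.log L ^ 2) := add_le_add h4 h5
    _ = _ := by ring

/-- **the second moment in intervals** -/
theorem momI : ∃ C : ℝ, 1 ≤ C ∧ ∃ L₀ : ℕ, ∀ L : ℕ, L₀ ≤ L → ∀ A : ℕ, L < A → ∀ H : ℕ,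
      ∑ n ∈ Ico A (A + L), (wt H n : ℝ) ^ 2 ≤ C * (H / Real.log L + (H / Real.log L) ^ 2) * L := by
  classical
  obtain ⟨C₁, hC₁, h₁⟩ := Pool.Agent.P8H13.OP.bt
  obtain ⟨C₂, hC₂, L₂, h₂⟩ := pairI
  refine ⟨C₁ + 8 * C₂, by linarith, L₂ + 3, fun L hL A hA H => ?_⟩
  have hL3 : (3 : ℝ) ≤ L := by exact_mod_cast (by omega : 3 ≤ L)
  have hL0 : (0 : ℝ) < L := by linarith
  have hlL : 0 < Real.log L := Real.log_pos (by linarith)
  have hone : ∀ j : ℕ, (((Ico A (A + L)).filter (fun n : ℕ => (n + j).Prime)).card : ℝ) ≤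
      C₁ * (L / Real.log L) := by
    intro j
    have h3 := h₁ j A L (by omega) ((Ico A (A + L)).filter (fun n : ℕ => (n + j).Prime)) (by
      intro b hb
      rw [mem_filter] at hb
      rw [Nat.add_comm]
      exact hb.2)
    have h4 : ((Ico A (A + L)).filter (fun n : ℕ => (n + j).Prime)).filter (fun b => A ≤ b ∧ b < A + L) =
        (Ico A (A + L)).filter (fun n : ℕ => (n + j).Prime) := by
      apply filter_true_of_mem
      intro b hb
      rw [mem_filter, mem_Ico] at hb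
      exact hb.1
    rw [h4] at h3
    rw [← mul_div_assoc]
    exact h3
  simp only [wt_sq]
  rw [sum_comm]
  have h3 : ∀ j ∈ Icc 1 H, ∑ y ∈ Ico A (A + L), ∑ j' ∈ Icc 1 H,
      (if (y + j).Prime ∧ (y + j').Prime then (1 : ℝ) else 0) ≤
      C₁ * (L / Real.log L) + 8 * C₂ * H * (L / Real.log L ^ 2) := by
    intro j hj
    rw [mem_Icc] at hj
    rw [sum_comm]
    have h4 : ∀ j' ∈ Icc 1 H, ∑ y ∈ Ico A (A + L),
        (if (y + j).Prime ∧ (y + j').Prime then (1 : ℝ) else 0) ≤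
        (if j = j' then C₁ * (L / Real.log L) else 0) +
          C₂ * (((j' - j : ℕ) : ℝ) / (j' - j).totient + ((j - j' : ℕ) : ℝ) / (j - j').totient) *
            (L / Real.log L ^ 2) := by
      intro j' _
      have h5 : ∑ y ∈ Ico A (A + L),
        (if (y + j).Prime ∧ (y + j').Prime then (1 : ℝ) else 0) =
        (((Ico A (A + L)).filter (fun y : ℕ => (y + j).Prime ∧ (y + j').Prime)).card : ℝ) := by
        rw [card_filter]
        push_cast
        rfl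
      rw [h5]
      rcases lt_trichotomy j j' with h6 | h6 | h6
      · rw [if_neg (by omega)]
        have h7 := h₂ L (by omega) A hA j j' h6
        have h8 : j - j' = 0 := by omega
        rw [h8]
        simpa using h7
      · subst h6
        rw [if_pos rfl]
        simp only [and_self, Nat.sub_self, CharP.cast_eq_zero, zero_div, add_zero, mul_zero, zero_mul]
        exact hone j
      · rw [if_neg (by omega)]
        have h7 := h₂ L (by omega) A hA j' j h6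
        have h8 : j' - j = 0 := by omega
        rw [h8]
        have h9 : (Ico A (A + L)).filter (fun y : ℕ => (y + j).Prime ∧ (y + j').Prime) =
            (Ico A (A + L)).filter (fun y : ℕ => (y + j').Prime ∧ (y + j).Prime) := by
          apply filter_congr
          intro y _
          exact and_comm
        rw [h9]
        simpa using h7
    refine (sum_le_sum h4).trans ?_
    rw [sum_add_distrib, sum_ite_eq, if_pos (mem_Icc.2 hj), ← sum_mul, ← mul_sum]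
    have h5 := sum_g H j
    have h6 : (j : ℝ) ≤ H := by exact_mod_cast hj.2
    have h7 : C₂ * ∑ j' ∈ Icc 1 H, (((j' - j : ℕ) : ℝ) / (j' - j).totient +
        ((j - j' : ℕ) : ℝ) / (j - j').totient) ≤ 8 * C₂ * H := by
      have h8 := mul_le_mul_of_nonneg_left h5 hC₂.le
      nlinarith
    have h8 : 0 ≤ (L : ℝ) / Real.log L ^ 2 := by positivity
    have h9 := mul_le_mul_of_nonneg_right h7 h8
    linarith
  refine (sum_le_sum h3).trans ?_
  rw [sum_const, Nat.card_Icc, nsmul_eq_mul]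
  have h4 : ((H + 1 - 1 : ℕ) : ℝ) = H := by simp
  rw [h4]
  have e1 : (H : ℝ) * (C₁ * (L / Real.log L) + 8 * C₂ * H * (L / Real.log L ^ 2)) =
      C₁ * ((H / Real.log L) * L) + 8 * C₂ * ((H / Real.log L) ^ 2 * L) := by
    field_simp
  rw [e1]
  have h5 : 0 ≤ (H : ℝ) / Real.log L * L := by positivity
  have h6 : 0 ≤ ((H : ℝ) / Real.log L) ^ 2 * L := by positivity
  have e2 : (C₁ + 8 * C₂) * (H / Real.log L + (H / Real.log L) ^ 2) * L =
      (C₁ + 8 * C₂) * (H / Real.log L * L) + (C₁ + 8 * C₂) * ((H / Real.log L) ^ 2 * L) := by ring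
  rw [e2]
  have h7 : C₁ * (H / Real.log L * L) ≤ (C₁ + 8 * C₂) * (H / Real.log L * L) :=
    mul_le_mul_of_nonneg_right (by linarith) h5
  have h8 : 8 * C₂ * ((H / Real.log L) ^ 2 * L) ≤ (C₁ + 8 * C₂) * ((H / Real.log L) ^ 2 * L) :=
    mul_le_mul_of_nonneg_right (by linarith) h6
  linarith

end Pool.Agent.P8H13.NT
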