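import Mathlib
import Pool.Agent.P8H13.CL.Low

/-!
# Sums over the rows, `θ ≤ 1` (helper13)
-/

set_option autoImplicit false

namespace Pool.Agent.P8H13.NT

open Finset Filter Topology
open Pool.Agent.P8H13.OP (Row rowsum)

theorem rowsum3 (b : ℤ) (hb : b = 0 ∨ b = -1) (θ : ℝ) (hθ : 7 / 10 < θ) (hθ1 : θ ≤ 1) :
    ∃ c : ℝ, 0 < c ∧ ∀ β γ : ℝ, 0 ≤ β → β < γ → γ ≤ 1 → ∃ N₀ : ℕ, ∀ N : ℕ, N₀ ≤ N →
      c * (γ - β) * ((N : ℝ) * ((N : ℝ) ^ θ / Real.log N)) ≤ ∑ x ∈ Ioc N (2 * N), ((Row b θ β γ x).card : ℝ) := by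
  classical
  obtain ⟨c, hc, h⟩ := rowsum b hb θ hθ hθ1
  refine ⟨c / 4, by positivity, fun β γ hβ hβγ hγ => ?_⟩
  obtain ⟨N₀, hN₀⟩ := h β γ hβ hβγ hγ
  refine ⟨N₀ + 3, fun N hN => ?_⟩
  have hΔ0 : 0 < γ - β := by linarith
  have hΔ1 : γ - β ≤ 1 := by linarith
  have hNr3 : (3 : ℝ) ≤ N := by exact_mod_cast (by omega : 3 ≤ N)
  have hNr0 : (0 : ℝ) < N := by linarith
  have hlN : 0 < Real.log N := Real.log_pos (by linarith)
  obtain ⟨Λ, hΛ⟩ : ∃ Λ : ℝ, Λ = Real.log (2 * N) := ⟨_, rfl⟩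
  have hΛ0 : 0 < Λ := by
    rw [hΛ]
    exact Real.log_pos (by linarith)
  have hΛ2 : Λ ≤ 2 * Real.log N := by
    have h1 : 2 * (N : ℝ) ≤ (N : ℝ) ^ 2 := by nlinarith
    have h2 := Real.log_le_log (by linarith) h1
    rw [Real.log_pow, ← hΛ] at h2
    exact_mod_cast h2
  have key : ∀ n u : ℕ, N ≤ u → u ≤ 2 * N → 2 * N - u = n →
      c * (γ - β) * ((2 * N - u - 2 * ((γ - β) / 4) * N) * ((N : ℝ) ^ θ / Λ)) ≤
        ∑ x ∈ Ioc u (2 * N), ((Row b θ β γ x).card : ℝ) := by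
    intro n
    induction n using Nat.strong_induction_on with
    | _ n ih =>
      intro u hu1 hu2 hn
      have hur : (N : ℝ) ≤ u := by exact_mod_cast hu1
      have hu2r : (u : ℝ) ≤ 2 * N := by exact_mod_cast hu2
      obtain ⟨M, hM1, hM2, hM3⟩ := hN₀ u (by omega)
      have hM1r : (u : ℝ) < M := by exact_mod_cast hM1
      by_cases hM : M ≤ 2 * N
      · have h1 := ih (2 * N - M) (by omega) M (by omega) hM rfl
        have h2 : ∑ x ∈ Ioc u (2 * N), ((Row b θ β γ x).card : ℝ) =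
            ∑ x ∈ Ioc u M, ((Row b θ β γ x).card : ℝ) + ∑ x ∈ Ioc M (2 * N), ((Row b θ β γ x).card : ℝ) :=
          (Finset.sum_Ioc_consecutive _ hM1.le hM).symm
        rw [h2]
        have h3 : (N : ℝ) ^ θ / Λ ≤ (u : ℝ) ^ θ / Real.log u := by
          apply div_le_div₀ (by positivity) (Real.rpow_le_rpow (by linarith) hur (by linarith)) (Real.log_pos (by linarith))
          rw [hΛ]
          exact Real.log_le_log (by linarith) hu2r
        have h4 : c * (γ - β) * (((M : ℝ) - u) * ((N : ℝ) ^ θ / Λ)) ≤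
            c * (γ - β) * (((M : ℝ) - u) * ((u : ℝ) ^ θ / Real.log u)) := by
          apply mul_le_mul_of_nonneg_left _ (by positivity)
          exact mul_le_mul_of_nonneg_left h3 (by linarith)
        calc c * (γ - β) * ((2 * N - u - 2 * ((γ - β) / 4) * N) * ((N : ℝ) ^ θ / Λ)) =
              c * (γ - β) * (((M : ℝ) - u) * ((N : ℝ) ^ θ / Λ)) +
              c * (γ - β) * ((2 * N - M - 2 * ((γ - β) / 4) * N) * ((N : ℝ) ^ θ / Λ)) := by ring
          _ ≤ _ := add_le_add (h4.trans hM3) h1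
      · have hMr : (2 * N : ℝ) ≤ M := by
          have : 2 * N ≤ M := by omega
          exact_mod_cast this
        have h5 : (2 * N - u - 2 * ((γ - β) / 4) * N : ℝ) ≤ 0 := by nlinarith
        have h6 : c * (γ - β) * ((2 * N - u - 2 * ((γ - β) / 4) * N) * ((N : ℝ) ^ θ / Λ)) ≤ 0 := by
          apply mul_nonpos_of_nonneg_of_nonpos (by positivity)
          exact mul_nonpos_of_nonpos_of_nonneg h5 (by positivity)
        refine h6.trans (sum_nonneg fun x _ => Nat.cast_nonneg _)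
  have h1 := key (2 * N - N) N le_rfl (by omega) rfl
  refine le_trans ?_ h1
  have h2 : (N : ℝ) / 2 ≤ 2 * N - N - 2 * ((γ - β) / 4) * N := by nlinarith
  have h3 : (N : ℝ) ^ θ / (2 * Real.log N) ≤ (N : ℝ) ^ θ / Λ := div_le_div_of_nonneg_left (by positivity) hΛ0 hΛ2
  calc c / 4 * (γ - β) * ((N : ℝ) * ((N : ℝ) ^ θ / Real.log N)) =
        c * (γ - β) * ((N / 2) * ((N : ℝ) ^ θ / (2 * Real.log N))) := by
        field_simp
        ring
    _ ≤ _ := by
        apply mul_le_mul_of_nonneg_left _ (by positivity)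
        exact mul_le_mul h2 h3 (by positivity) (by linarith)


end Pool.Agent.P8H13.NT
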