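import Mathlib
import Pool.Agent.P8H13.CL.Low
import Pool.Agent.P8H13.CL.Dens
import Pool.Agent.P8H13.CL.TopC
import Pool.Agent.P8H13.CL.Bad
import Pool.Agent.P8H13.NT.Int
import Pool.Agent.P8H13.NT.Row3
import Pool.Agent.P8H13.NQ.Top
import Pool.Agent.P8H13.OP.Meas
import Pool.Agent.P8H13.OP.Sets
import Pool.Agent.P8H13.OP.Top

/-!
# The rows with `θ < 1` (helper13)
-/

set_option autoImplicit false

namespace Pool.Agent.P8H13.NT

open Finset Filter Topology MeasureTheory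
open Pool.Agent.P8H13.OP (q q_cast Row F mem_F meas_F vol_F fin_F vol_Ico)
open Pool.Agent.P8H13.CL (io many hits hits_meas)
open Pool.Agent.P8H13.NP (wt)
open Pool.Agent.P8H13.NQ (wt_mono)

/-- the number of the `x ∈ (N, 2 N]` with at least `t` primes `q b x + ⌊α x^θ⌋ + j`, `1 ≤ j ≤ H` -/
noncomputable def near (b : ℤ) (θ α : ℝ) (H : ℕ) (t : ℝ) (N : ℕ) : ℕ :=
  ((Ioc N (2 * N)).filter (fun x : ℕ => t ≤ (wt H (q b x + ⌊α * (x : ℝ) ^ θ⌋₊) : ℝ))).card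

theorem near_meas (b : ℤ) (θ : ℝ) (H : ℕ) (t : ℝ) (N : ℕ) :
    Measurable (fun α : ℝ => (near b θ α H t N : ℝ)) := by
  unfold near
  simp only [card_filter]
  push_cast
  apply Finset.measurable_sum
  intro x _
  have h1 : Measurable (fun α : ℝ => ⌊α * (x : ℝ) ^ θ⌋₊) :=
    Nat.measurable_floor.comp (measurable_id.mul_const _)
  have h2 : MeasurableSet {α : ℝ | t ≤ (wt H (q b x + ⌊α * (x : ℝ) ^ θ⌋₊) : ℝ)} :=
    h1 (MeasurableSet.of_discrete (s := {n : ℕ | t ≤ (wt H (q b x + n) : ℝ)}))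
  exact Measurable.ite h2 measurable_const measurable_const

/-- the shifted row -/
noncomputable def RowS (b : ℤ) (θ β γ : ℝ) (x j : ℕ) : Finset ℕ := by
  classical exact (range (x + 1)).filter (fun a : ℕ => a + j ∈ Row b θ β γ x)

theorem mem_Row (b : ℤ) (θ β γ : ℝ) (x a : ℕ) (h : a ∈ Row b θ β γ x) :
    a < x + 1 ∧ β * (x : ℝ) ^ θ ≤ a ∧ (a : ℝ) + 1 ≤ γ * (x : ℝ) ^ θ ∧ (q b x + a).Prime := by
  unfold Row at h
  rw [mem_filter, mem_range] at h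
  exact h

theorem card_RowS (b : ℤ) (θ β γ : ℝ) (x j : ℕ) (hj : (j : ℝ) ≤ β * (x : ℝ) ^ θ) :
    ((Row b θ β γ x).card : ℝ) ≤ ((RowS b θ β γ x j).card : ℝ) := by
  classical
  have h1 : (Row b θ β γ x).card ≤ (RowS b θ β γ x j).card := by
    apply card_le_card_of_injOn (fun a => a - j)
    · intro a ha
      rw [Finset.mem_coe] at ha
      have h2 := mem_Row b θ β γ x a ha
      have h3 : j ≤ a := by
        have : (j : ℝ) ≤ a := hj.trans h2.2.1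
        exact_mod_cast this
      rw [Finset.mem_coe]
      unfold RowS
      rw [mem_filter, mem_range]
      show a - j < x + 1 ∧ (a - j) + j ∈ Row b θ β γ x
      refine ⟨by omega, ?_⟩
      rw [Nat.sub_add_cancel h3]
      exact ha
    · intro a ha a' ha' haa
      rw [Finset.mem_coe] at ha ha'
      have h2 := mem_Row b θ β γ x a ha
      have h2' := mem_Row b θ β γ x a' ha'
      have h3 : j ≤ a := by
        have : (j : ℝ) ≤ a := hj.trans h2.2.1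
        exact_mod_cast this
      have h3' : j ≤ a' := by
        have : (j : ℝ) ≤ a' := hj.trans h2'.2.1
        exact_mod_cast this
      simp only at haa
      omega
  exact_mod_cast h1

theorem F_subS (b : ℤ) (θ β β' γ : ℝ) (x j : ℕ) (hx : 1 ≤ x) (hj : (j : ℝ) ≤ (β' - β) * (x : ℝ) ^ θ) (α : ℝ)
    (h : α ∈ F ((x : ℝ) ^ θ) (RowS b θ β' γ x j)) :
    α ∈ Set.Icc β γ ∧ (q b x + ⌊α * (x : ℝ) ^ θ⌋₊ + j).Prime := by
  classical
  have hx0 : (0 : ℝ) < x := by exact_mod_cast hx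
  have hs0 : 0 < (x : ℝ) ^ θ := Real.rpow_pos_of_pos hx0 _
  rw [mem_F hs0] at h
  obtain ⟨h0, h1⟩ := h
  unfold RowS at h1
  rw [mem_filter] at h1
  obtain ⟨h2, h3, h4⟩ := (mem_Row b θ β' γ x _ h1.2).2
  push_cast at h2 h3
  have h5 : (⌊α * (x : ℝ) ^ θ⌋₊ : ℝ) ≤ α * (x : ℝ) ^ θ := Nat.floor_le (by positivity)
  have h6 : α * (x : ℝ) ^ θ < (⌊α * (x : ℝ) ^ θ⌋₊ : ℝ) + 1 := Nat.lt_floor_add_one _
  have hj0 : (0 : ℝ) ≤ j := Nat.cast_nonneg j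
  refine ⟨⟨?_, ?_⟩, ?_⟩
  · have h7 : β * (x : ℝ) ^ θ ≤ α * (x : ℝ) ^ θ := by linarith
    exact le_of_mul_le_mul_right h7 hs0
  · have h7 : α * (x : ℝ) ^ θ ≤ γ * (x : ℝ) ^ θ := by linarith
    exact le_of_mul_le_mul_right h7 hs0
  · rw [Nat.add_assoc]
    exact h4

/-- the second moment over one row -/
theorem rowmom (b : ℤ) (hb : b = 0 ∨ b = -1) (θ : ℝ) (hθ : 7 / 10 < θ) (hθ1 : θ ≤ 1) : ∃ C : ℝ, 1 ≤ C ∧
    ∀ lam : ℝ, 0 < lam → ∀ β γ : ℝ, 0 ≤ β → β < γ → γ ≤ 1 → ∃ N₀ : ℕ, ∀ N : ℕ, N₀ ≤ N →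
      ∀ x ∈ Ioc N (2 * N), ∀ H : ℕ, (H : ℝ) ≤ lam * Real.log N →
        ∑ a ∈ Ico ⌊β * (x : ℝ) ^ θ⌋₊ (⌊γ * (x : ℝ) ^ θ⌋₊ + 1), (wt H (q b x + a) : ℝ) ^ 2 ≤
          C * (lam + lam ^ 2) * (γ - β) * (x : ℝ) ^ θ := by
  obtain ⟨C, hC, L₀, hmom⟩ := momI
  refine ⟨8 * C, by linarith, fun lam hlam β γ hβ hβγ hγ => ?_⟩
  obtain ⟨Δ, hΔ⟩ : ∃ Δ : ℝ, Δ = γ - β := ⟨_, rfl⟩
  have hΔ0 : 0 < Δ := by rw [hΔ]; linarith
  have h1 : Tendsto (fun N : ℕ => (N : ℝ) ^ (θ - 1 / 2)) atTop atTop :=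
    (tendsto_rpow_atTop (by linarith)).comp tendsto_natCast_atTop_atTop
  have h2 : Tendsto (fun N : ℕ => (N : ℝ) ^ (1 / 2 : ℝ)) atTop atTop :=
    (tendsto_rpow_atTop (by norm_num)).comp tendsto_natCast_atTop_atTop
  obtain ⟨N₁, hN₁⟩ := eventually_atTop.1 ((h1.eventually_ge_atTop (1 / Δ)).and
    (h2.eventually_ge_atTop ((L₀ : ℝ) + 2)))
  refine ⟨N₁ + 5, fun N hN x hx H hH => ?_⟩
  obtain ⟨b1, b2⟩ := hN₁ N (by omega)
  rw [mem_Ioc] at hx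
  have hN5 : (5 : ℝ) ≤ N := by exact_mod_cast (by omega : 5 ≤ N)
  have hN0 : (0 : ℝ) < N := by linarith
  have hNx : (N : ℝ) ≤ x := by exact_mod_cast hx.1.le
  have hx0 : (0 : ℝ) < x := by linarith
  have hlN : 0 < Real.log N := Real.log_pos (by linarith)
  obtain ⟨s, hs⟩ : ∃ s : ℝ, s = (x : ℝ) ^ θ := ⟨_, rfl⟩
  have hs0 : 0 < s := by rw [hs]; positivity
  rw [← hs]
  have hsN : (N : ℝ) ^ θ ≤ s := by rw [hs]; exact Real.rpow_le_rpow hN0.le hNx (by linarith)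
  have hsx : s ≤ x := by
    rw [hs]
    calc (x : ℝ) ^ θ ≤ (x : ℝ) ^ (1 : ℝ) := Real.rpow_le_rpow_of_exponent_le (by linarith) hθ1
      _ = x := Real.rpow_one _
  obtain ⟨a0, ha0⟩ : ∃ a0 : ℕ, a0 = ⌊β * s⌋₊ := ⟨_, rfl⟩
  obtain ⟨a1, ha1⟩ : ∃ a1 : ℕ, a1 = ⌊γ * s⌋₊ := ⟨_, rfl⟩
  have hβs : 0 ≤ β * s := by positivity
  have hγs : 0 ≤ γ * s := mul_nonneg (by linarith) hs0.le
  have e1 : (a0 : ℝ) ≤ β * s := by rw [ha0]; exact Nat.floor_le hβs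
  have e2 : β * s < a0 + 1 := by rw [ha0]; exact Nat.lt_floor_add_one _
  have e3 : (a1 : ℝ) ≤ γ * s := by rw [ha1]; exact Nat.floor_le hγs
  have e4 : γ * s < a1 + 1 := by rw [ha1]; exact Nat.lt_floor_add_one _
  have h01 : a0 ≤ a1 := by
    rw [ha0, ha1]
    exact Nat.floor_le_floor (mul_le_mul_of_nonneg_right hβγ.le hs0.le)
  obtain ⟨L, hL⟩ : ∃ L : ℕ, L = a1 + 1 - a0 := ⟨_, rfl⟩
  have hLr : (L : ℝ) = a1 + 1 - a0 := by
    rw [hL, Nat.cast_sub (by omega)]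
    push_cast
    rfl
  have hLlow : Δ * s ≤ L := by
    rw [hLr, hΔ]
    linarith
  have hN12 : (N : ℝ) ^ (1 / 2 : ℝ) ≤ Δ * s := by
    have h3 : (N : ℝ) ^ θ = (N : ℝ) ^ (1 / 2 : ℝ) * (N : ℝ) ^ (θ - 1 / 2) := by
      rw [← Real.rpow_add hN0]
      congr 1
      ring
    have h4 : 1 ≤ Δ * (N : ℝ) ^ (θ - 1 / 2) := by
      rw [div_le_iff₀ hΔ0] at b1
      linarith
    have h5 : 0 ≤ (N : ℝ) ^ (1 / 2 : ℝ) := by positivity
    calc (N : ℝ) ^ (1 / 2 : ℝ) ≤ (N : ℝ) ^ (1 / 2 : ℝ) * (Δ * (N : ℝ) ^ (θ - 1 / 2)) :=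
          le_mul_of_one_le_right h5 h4
      _ = Δ * (N : ℝ) ^ θ := by rw [h3]; ring
      _ ≤ Δ * s := mul_le_mul_of_nonneg_left hsN hΔ0.le
  have hLup : (L : ℝ) ≤ 2 * (Δ * s) := by
    rw [hLr]
    have : (a1 : ℝ) + 1 - a0 ≤ Δ * s + 2 := by rw [hΔ]; linarith
    have h3 : (0 : ℝ) ≤ L₀ := Nat.cast_nonneg _
    linarith
  have hLL₀ : L₀ ≤ L := by
    have : (L₀ : ℝ) ≤ L := by linarith
    exact_mod_cast this
  have hLx : L ≤ x + 1 := by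
    have h3 : γ * s ≤ x := by
      have : γ * s ≤ 1 * s := mul_le_mul_of_nonneg_right hγ hs0.le
      linarith
    have h4 : (a1 : ℝ) ≤ x := e3.trans h3
    have h5 : a1 ≤ x := by exact_mod_cast h4
    omega
  have hq : x + 2 ≤ q b x := by
    have h3 := q_cast b hb x
    have h4 : (5 : ℤ) < x := by
      have : 5 < x := by omega
      exact_mod_cast this
    have h5 : ((x : ℤ) + 2) ≤ ((q b x : ℕ) : ℤ) := by
      rw [h3]
      rcases hb with rfl | rfl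
      · nlinarith
      · nlinarith
    exact_mod_cast h5
  have hm := hmom L hLL₀ (q b x + a0) (by omega) H
  have hsum : ∑ a ∈ Ico a0 (a1 + 1), (wt H (q b x + a) : ℝ) ^ 2 =
      ∑ n ∈ Ico (q b x + a0) (q b x + a0 + L), (wt H n : ℝ) ^ 2 := by
    rw [Finset.sum_Ico_add (fun n => (wt H n : ℝ) ^ 2) a0 (a1 + 1) (q b x)]
    congr 1
    congr 1
    · omega
    · omega
  rw [← ha0, ← ha1, hsum]
  refine hm.trans ?_
  have hL12 : (N : ℝ) ^ (1 / 2 : ℝ) ≤ L := hN12.trans hLlow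
  have hlogL : 1 / 2 * Real.log N ≤ Real.log L := by
    have h3 := Real.log_le_log (by positivity) hL12
    rw [Real.log_rpow hN0] at h3
    exact h3
  have hlL0 : 0 < Real.log L := lt_of_lt_of_le (by positivity) hlogL
  have h3 : (H : ℝ) / Real.log L ≤ 2 * lam := by
    rw [div_le_iff₀ hlL0]
    nlinarith
  have h30 : 0 ≤ (H : ℝ) / Real.log L := by positivity
  have h4 : ((H : ℝ) / Real.log L) ^ 2 ≤ (2 * lam) ^ 2 := pow_le_pow_left₀ h30 h3 2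
  have hC0 : 0 ≤ C := by linarith
  calc C * (H / Real.log L + (H / Real.log L) ^ 2) * L ≤ C * (2 * lam + (2 * lam) ^ 2) * (2 * (Δ * s)) := by
        gcongr
    _ ≤ 8 * C * (lam + lam ^ 2) * Δ * s := by
        have h5 : 0 ≤ C * (Δ * s) * lam := by positivity
        nlinarith
    _ = 8 * C * (lam + lam ^ 2) * (γ - β) * s := by rw [hΔ]

end Pool.Agent.P8H13.NT
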