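import Mathlib
import Pool.Agent.P8H13.NT.Mom
import Pool.Agent.P8H13.NQ.Top

/-!
# Many primes near `x² + α x^θ` for a positive proportion of the rows (helper13)
-/

set_option autoImplicit false

namespace Pool.Agent.P8H13.NT

open Finset Filter Topology MeasureTheory
open Pool.Agent.P8H13.OP (q q_cast Row F mem_F meas_F vol_F fin_F vol_Ico)
open Pool.Agent.P8H13.CL (io many hits hits_meas)
open Pool.Agent.P8H13.NP (wt)
open Pool.Agent.P8H13.NQ (wt_mono)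

/-- the pointwise bound -/
theorem ptT (c C lam s κ t : ℝ) (hc : 0 < c) (hlam : 0 < lam) (hs0 : 0 < s)
    (ht : t = max 1 (c / 48 * lam)) (b : ℤ) (θ α : ℝ) (H N : ℕ) :
    ∑ x ∈ Ioc N (2 * N), (wt H (q b x + ⌊α * (x : ℝ) ^ θ⌋₊) : ℝ) ≤
      c * lam / 48 * N + (s * near b θ α H t N + 1 / (4 * s) *
        ∑ x ∈ Ioc N (2 * N), (wt H (q b x + ⌊α * (x : ℝ) ^ θ⌋₊) : ℝ) ^ 2) := by
  have hcN : c * lam / 48 * N = ∑ _x ∈ Ioc N (2 * N), c * lam / 48 := by
    rw [sum_const, Nat.card_Ioc, nsmul_eq_mul]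
    have : ((2 * N - N : ℕ) : ℝ) = N := by
      congr 1
      omega
    rw [this]
    ring
  rw [hcN]
  unfold near
  rw [card_filter]
  push_cast
  rw [mul_sum, mul_sum, ← sum_add_distrib, ← sum_add_distrib]
  apply sum_le_sum
  intro x _
  have hcl : 0 ≤ c * lam / 48 := by positivity
  by_cases h3 : t ≤ (wt H (q b x + ⌊α * (x : ℝ) ^ θ⌋₊) : ℝ)
  · rw [if_pos h3]
    have h5 : s * 1 + 1 / (4 * s) * (wt H (q b x + ⌊α * (x : ℝ) ^ θ⌋₊) : ℝ) ^ 2 -
        (wt H (q b x + ⌊α * (x : ℝ) ^ θ⌋₊) : ℝ) =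
        1 / (4 * s) * ((wt H (q b x + ⌊α * (x : ℝ) ^ θ⌋₊) : ℝ) - 2 * s) ^ 2 := by
      field_simp
      ring
    have h6 : 0 ≤ 1 / (4 * s) * ((wt H (q b x + ⌊α * (x : ℝ) ^ θ⌋₊) : ℝ) - 2 * s) ^ 2 := by positivity
    linarith
  · rw [if_neg h3]
    push Not at h3
    have h6 : 0 ≤ 1 / (4 * s) * (wt H (q b x + ⌊α * (x : ℝ) ^ θ⌋₊) : ℝ) ^ 2 := by positivity
    have h7 : (wt H (q b x + ⌊α * (x : ℝ) ^ θ⌋₊) : ℝ) ≤ c * lam / 48 := by
      rw [ht, lt_max_iff] at h3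
      rcases h3 with h8 | h8
      · have h9 : wt H (q b x + ⌊α * (x : ℝ) ^ θ⌋₊) < 1 := by exact_mod_cast h8
        have h10 : wt H (q b x + ⌊α * (x : ℝ) ^ θ⌋₊) = 0 := by omega
        rw [h10]
        simpa using hcl
      · have e : c / 48 * lam = c * lam / 48 := by ring
        rw [e] at h8
        exact h8.le
    linarith

/-- the measure of the `α` with many rows -/
theorem lowT (b : ℤ) (hb : b = 0 ∨ b = -1) (θ : ℝ) (hθ : 7 / 10 < θ) (hθ1 : θ ≤ 1) : ∃ κ₀ τ c₃ : ℝ, 0 < κ₀ ∧ 0 < τ ∧ 0 < c₃ ∧ ∀ lam : ℝ, 0 < lam →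
    ∀ β γ : ℝ, 0 ≤ β → β < γ → γ ≤ 1 → ∃ N₀ : ℕ, ∀ N : ℕ, N₀ ≤ N →
      c₃ * (lam / (1 + lam)) * (γ - β) ≤ (volume ({α : ℝ | κ₀ * (lam / (1 + lam)) * N ≤
        (near b θ α ⌊lam * Real.log N⌋₊ (max 1 (τ * lam)) N : ℝ)} ∩ Set.Icc β γ)).toReal := by
  classical
  obtain ⟨c, hc, hrow⟩ := rowsum3 b hb θ hθ hθ1
  obtain ⟨C, hC, hmom⟩ := rowmom b hb θ hθ hθ1
  have hC0 : 0 < C := by linarith
  refine ⟨c ^ 2 / (576 * C), c / 48, c ^ 2 / (192 * C), by positivity, by positivity, by positivity,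
    fun lam hlam β γ hβ hβγ hγ => ?_⟩
  obtain ⟨N₁, hmom'⟩ := hmom lam hlam β γ hβ hβγ hγ
  obtain ⟨s, hs⟩ : ∃ s : ℝ, s = 12 * C * (1 + lam) / c := ⟨_, rfl⟩
  have hs0 : 0 < s := by rw [hs]; positivity
  obtain ⟨κ, hκ⟩ : ∃ κ : ℝ, κ = c * lam / (48 * s) := ⟨_, rfl⟩
  obtain ⟨t, ht⟩ : ∃ t : ℝ, t = max 1 (c / 48 * lam) := ⟨_, rfl⟩
  have hκ' : c ^ 2 / (576 * C) * (lam / (1 + lam)) = κ := by
    rw [hκ, hs]
    field_simp
    norm_num
  obtain ⟨Δ, hΔ⟩ : ∃ Δ : ℝ, Δ = γ - β := ⟨_, rfl⟩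
  have hΔ0 : 0 < Δ := by rw [hΔ]; linarith
  obtain ⟨β', hβ'⟩ : ∃ β' : ℝ, β' = β + Δ / 2 := ⟨_, rfl⟩
  have hβ'0 : 0 ≤ β' := by rw [hβ']; positivity
  have hβ'γ : β' < γ := by rw [hβ', hΔ]; linarith
  obtain ⟨N₂, hN₂⟩ := hrow β' γ hβ'0 hβ'γ hγ
  have hlog : Tendsto (fun N : ℕ => lam * Real.log N) atTop atTop :=
    (Real.tendsto_log_atTop.comp tendsto_natCast_atTop_atTop).const_mul_atTop hlam
  have hlp : ∀ᶠ N : ℕ in atTop, 2 ≤ lam * Real.log N ∧ lam * Real.log N ≤ Δ / 2 * (N : ℝ) ^ θ := by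
    have h1' : (fun x : ℝ => Real.log x) =o[atTop] (fun x : ℝ => x ^ θ) :=
      isLittleO_log_rpow_atTop (by linarith)
    have h2' := h1'.bound (show (0 : ℝ) < Δ / (2 * lam) by positivity)
    have h3' := tendsto_natCast_atTop_atTop.eventually h2'
    filter_upwards [h3', eventually_ge_atTop 1, hlog.eventually_ge_atTop 2] with N hN' hN1 hN2
    have hN1' : (1 : ℝ) ≤ N := by exact_mod_cast hN1
    rw [Real.norm_of_nonneg (Real.log_nonneg hN1'),
      Real.norm_of_nonneg (Real.rpow_nonneg (by linarith) _)] at hN'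
    refine ⟨hN2, ?_⟩
    calc lam * Real.log N ≤ lam * (Δ / (2 * lam) * (N : ℝ) ^ θ) := by gcongr
      _ = _ := by field_simp
  obtain ⟨N₃, hN₃⟩ := eventually_atTop.1 hlp
  refine ⟨N₁ + N₂ + N₃ + 3, fun N hN => ?_⟩
  obtain ⟨b1, b4⟩ := hN₃ N (by omega)
  have hNr3 : (3 : ℝ) ≤ N := by exact_mod_cast (by omega : 3 ≤ N)
  have hN0 : (0 : ℝ) < N := by linarith
  have hlN : 0 < Real.log N := Real.log_pos (by linarith)
  have hNθ : 0 < (N : ℝ) ^ θ := Real.rpow_pos_of_pos hN0 _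
  obtain ⟨H, hH⟩ : ∃ H : ℕ, H = ⌊lam * Real.log N⌋₊ := ⟨_, rfl⟩
  have hH1 : (H : ℝ) ≤ lam * Real.log N := by rw [hH]; exact Nat.floor_le (by positivity)
  have hH2 : lam * Real.log N < H + 1 := by rw [hH]; exact Nat.lt_floor_add_one _
  have hH3 : lam * Real.log N / 2 ≤ H := by linarith
  rw [← hH, ← hΔ, hκ', ← ht]
  have hS := hN₂ N (by omega)
  have e0 : γ - β' = Δ / 2 := by rw [hβ', hΔ]; ring
  rw [e0] at hS
  obtain ⟨P, hP⟩ : ∃ P : Set ℝ, P = {α : ℝ | κ * N ≤ (near b θ α H t N : ℝ)} ∩ Set.Icc β γ := ⟨_, rfl⟩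
  rw [← hP]
  have hPm : MeasurableSet P := by
    rw [hP]
    exact (measurableSet_le measurable_const (near_meas b θ H t N)).inter measurableSet_Icc
  have hPf : volume P ≠ ⊤ := by
    refine ne_top_of_le_ne_top ?_ (measure_mono (show P ⊆ Set.Icc β γ by
      rw [hP]
      exact Set.inter_subset_right))
    rw [Real.volume_Icc]
    exact ENNReal.ofReal_ne_top
  have hIm : MeasurableSet (Set.Icc β γ) := measurableSet_Icc
  have hIf : volume (Set.Icc β γ) ≠ ⊤ := by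
    rw [Real.volume_Icc]
    exact ENNReal.ofReal_ne_top
  have hIr : (volume (Set.Icc β γ)).toReal = Δ := by
    rw [Real.volume_Icc, ENNReal.toReal_ofReal (by linarith), hΔ]
  have hxpos : ∀ x ∈ Ioc N (2 * N), (0 : ℝ) < (x : ℝ) ^ θ := by
    intro x hx
    rw [mem_Ioc] at hx
    apply Real.rpow_pos_of_pos
    exact_mod_cast (by omega : 0 < x)
  obtain ⟨G, hG⟩ : ∃ G : ℕ → ℕ → Set ℝ, G = fun x j : ℕ => F ((x : ℝ) ^ θ) (RowS b θ β' γ x j) := ⟨_, rfl⟩
  have hGm : ∀ x j, MeasurableSet (G x j) := by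
    intro x j
    rw [hG]
    exact meas_F _ _
  have hGf : ∀ x ∈ Ioc N (2 * N), ∀ j, volume (G x j) ≠ ⊤ := by
    intro x hx j
    rw [hG]
    exact fin_F (hxpos x hx) _
  obtain ⟨D, hD⟩ : ∃ D : ℕ → ℕ → Set ℝ, D = fun x a : ℕ =>
    Set.Ico ((a : ℝ) / (x : ℝ) ^ θ) (((a : ℝ) + 1) / (x : ℝ) ^ θ) := ⟨_, rfl⟩
  have hDm : ∀ x a, MeasurableSet (D x a) := by
    intro x a
    rw [hD]
    exact measurableSet_Ico
  have hDf : ∀ x a, volume (D x a) ≠ ⊤ := by
    intro x a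
    rw [hD]
    simp only
    rw [Real.volume_Ico]
    exact ENNReal.ofReal_ne_top
  have hDv : ∀ x ∈ Ioc N (2 * N), ∀ a, (volume (D x a)).toReal = 1 / (x : ℝ) ^ θ := by
    intro x hx a
    have h1 := hxpos x hx
    rw [hD]
    simp only
    have h2 : ((a : ℝ) + 1) / (x : ℝ) ^ θ - (a : ℝ) / (x : ℝ) ^ θ = 1 / (x : ℝ) ^ θ := by
      rw [← sub_div]
      congr 1
      ring
    rw [Real.volume_Ico, h2, ENNReal.toReal_ofReal (by positivity)]
  have hint : ∀ s : Set ℝ, MeasurableSet s → volume s ≠ ⊤ →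
      Integrable (s.indicator (fun _ => (1 : ℝ))) volume ∧
        ∫ x, s.indicator (fun _ => (1 : ℝ)) x = (volume s).toReal := by
    intro s hs hs2
    constructor
    · exact (integrable_indicator_iff hs).2 (integrableOn_const hs2)
    · rw [integral_indicator hs, setIntegral_const, smul_eq_mul, mul_one]
      rfl
  have hI1x : ∀ x ∈ Ioc N (2 * N),
      Integrable (fun α => ∑ j ∈ Icc 1 H, (G x j).indicator (fun _ => (1 : ℝ)) α) volume := fun x hx =>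
    integrable_finsetSum _ fun j _ => (hint (G x j) (hGm x j) (hGf x hx j)).1
  have hI1 : Integrable (fun α => ∑ x ∈ Ioc N (2 * N), ∑ j ∈ Icc 1 H,
      (G x j).indicator (fun _ => (1 : ℝ)) α) volume :=
    integrable_finsetSum _ hI1x
  have hI2 : Integrable (fun α => c * lam / 24 * N * (Set.Icc β γ).indicator (fun _ => (1 : ℝ)) α) volume :=
    (hint _ hIm hIf).1.const_mul _
  have hI3 : Integrable (fun α => s * N * P.indicator (fun _ => (1 : ℝ)) α) volume :=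
    (hint _ hPm hPf).1.const_mul _
  obtain ⟨R, hR⟩ : ∃ R : ℕ → Finset ℕ, R = fun x : ℕ =>
    Ico ⌊β * (x : ℝ) ^ θ⌋₊ (⌊γ * (x : ℝ) ^ θ⌋₊ + 1) := ⟨_, rfl⟩
  have hI4x : ∀ x ∈ Ioc N (2 * N),
      Integrable (fun α => ∑ a ∈ R x, (wt H (q b x + a) : ℝ) ^ 2 *
        (D x a).indicator (fun _ => (1 : ℝ)) α) volume := fun x hx =>
    integrable_finsetSum _ fun a _ => (hint (D x a) (hDm x a) (hDf x a)).1.const_mul _
  have hI4' : Integrable (fun α => ∑ x ∈ Ioc N (2 * N), ∑ a ∈ R x, (wt H (q b x + a) : ℝ) ^ 2 *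
        (D x a).indicator (fun _ => (1 : ℝ)) α) volume :=
    integrable_finsetSum _ hI4x
  have hI4 : Integrable (fun α => 1 / (4 * s) * ∑ x ∈ Ioc N (2 * N), ∑ a ∈ R x, (wt H (q b x + a) : ℝ) ^ 2 *
        (D x a).indicator (fun _ => (1 : ℝ)) α) volume := hI4'.const_mul _
  have hI23 : Integrable (fun α => c * lam / 24 * N * (Set.Icc β γ).indicator (fun _ => (1 : ℝ)) α +
      s * N * P.indicator (fun _ => (1 : ℝ)) α) volume := hI2.add hI3
  have hind : ∀ (s : Set ℝ) (α : ℝ), 0 ≤ s.indicator (fun _ => (1 : ℝ)) α := fun s α =>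
    Set.indicator_nonneg (fun _ _ => zero_le_one) α
  have hjx : ∀ x ∈ Ioc N (2 * N), ∀ j ∈ Icc 1 H, (j : ℝ) ≤ (β' - β) * (x : ℝ) ^ θ := by
    intro x hx j hj
    rw [mem_Ioc] at hx
    rw [mem_Icc] at hj
    have h1 : (j : ℝ) ≤ H := by exact_mod_cast hj.2
    have h2 : (N : ℝ) ≤ x := by exact_mod_cast hx.1.le
    have h2' : (N : ℝ) ^ θ ≤ (x : ℝ) ^ θ := Real.rpow_le_rpow hN0.le h2 (by linarith)
    have e : β' - β = Δ / 2 := by rw [hβ']; ring
    rw [e]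
    have h3 : Δ / 2 * (N : ℝ) ^ θ ≤ Δ / 2 * (x : ℝ) ^ θ := mul_le_mul_of_nonneg_left h2' (by positivity)
    linarith
  have key : ∫ α, ∑ x ∈ Ioc N (2 * N), ∑ j ∈ Icc 1 H, (G x j).indicator (fun _ => (1 : ℝ)) α ≤
      ∫ α, (c * lam / 24 * N * (Set.Icc β γ).indicator (fun _ => (1 : ℝ)) α +
        s * N * P.indicator (fun _ => (1 : ℝ)) α +
        1 / (4 * s) * ∑ x ∈ Ioc N (2 * N), ∑ a ∈ R x, (wt H (q b x + a) : ℝ) ^ 2 *
        (D x a).indicator (fun _ => (1 : ℝ)) α) := by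
    refine integral_mono hI1 ((hI2.add hI3).add hI4) fun α => ?_
    have hp1 := mul_nonneg (by positivity : 0 ≤ c * lam / 24 * (N : ℝ)) (hind (Set.Icc β γ) α)
    have hp2 := mul_nonneg (by positivity : 0 ≤ s * (N : ℝ)) (hind P α)
    have hp3 : 0 ≤ 1 / (4 * s) * ∑ x ∈ Ioc N (2 * N), ∑ a ∈ R x, (wt H (q b x + a) : ℝ) ^ 2 *
        (D x a).indicator (fun _ => (1 : ℝ)) α := by
      apply mul_nonneg (by positivity)
      apply sum_nonneg
      intro x _
      apply sum_nonneg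
      intro a _
      exact mul_nonneg (by positivity) (hind _ _)
    simp only
    have hGsub : ∀ x ∈ Ioc N (2 * N), ∀ j ∈ Icc 1 H, α ∈ G x j →
        α ∈ Set.Icc β γ ∧ (q b x + ⌊α * (x : ℝ) ^ θ⌋₊ + j).Prime := by
      intro x hx j hj hα
      have h2 := hjx x hx j hj
      rw [mem_Ioc] at hx
      rw [hG] at hα
      exact F_subS b θ β β' γ x j (by omega) h2 α hα
    by_cases hα : α ∈ Set.Icc β γ
    · obtain ⟨S, hSd⟩ : ∃ S : ℝ, S = ∑ x ∈ Ioc N (2 * N), (wt H (q b x + ⌊α * (x : ℝ) ^ θ⌋₊) : ℝ) := ⟨_, rfl⟩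
      have hnum : ∑ x ∈ Ioc N (2 * N), ∑ j ∈ Icc 1 H, (G x j).indicator (fun _ => (1 : ℝ)) α ≤ S := by
        rw [hSd]
        apply sum_le_sum
        intro x hx
        unfold wt
        rw [card_filter]
        push_cast
        apply sum_le_sum
        intro j hj
        by_cases h1 : α ∈ G x j
        · rw [Set.indicator_of_mem h1, if_pos (hGsub x hx j hj h1).2]
        · rw [Set.indicator_of_notMem h1]
          split_ifs <;> norm_num
      have hpt := ptT c C lam s κ t hc hlam hs0 ht b θ α H N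
      rw [← hSd] at hpt
      have hsq : ∑ x ∈ Ioc N (2 * N), (wt H (q b x + ⌊α * (x : ℝ) ^ θ⌋₊) : ℝ) ^ 2 ≤
          ∑ x ∈ Ioc N (2 * N), ∑ a ∈ R x, (wt H (q b x + a) : ℝ) ^ 2 *
            (D x a).indicator (fun _ => (1 : ℝ)) α := by
        apply sum_le_sum
        intro x hx
        have hx0 := hxpos x hx
        have hα0 : 0 ≤ α := hβ.trans hα.1
        have hmem : ⌊α * (x : ℝ) ^ θ⌋₊ ∈ R x := by
          rw [hR]
          simp only
          rw [mem_Ico]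
          constructor
          · exact Nat.floor_le_floor (mul_le_mul_of_nonneg_right hα.1 hx0.le)
          · exact Nat.lt_succ_of_le (Nat.floor_le_floor (mul_le_mul_of_nonneg_right hα.2 hx0.le))
        have h1 := single_le_sum (f := fun a => (wt H (q b x + a) : ℝ) ^ 2 *
            (D x a).indicator (fun _ => (1 : ℝ)) α) (s := R x)
            (fun a _ => mul_nonneg (by positivity) (hind _ _)) hmem
        have h2 : α ∈ D x ⌊α * (x : ℝ) ^ θ⌋₊ := by
          rw [hD]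
          simp only
          rw [Set.mem_Ico, div_le_iff₀ hx0, lt_div_iff₀ hx0]
          exact ⟨Nat.floor_le (by positivity), Nat.lt_floor_add_one _⟩
        rw [Set.indicator_of_mem h2, mul_one] at h1
        exact h1
      have hsq' : 1 / (4 * s) * ∑ x ∈ Ioc N (2 * N), (wt H (q b x + ⌊α * (x : ℝ) ^ θ⌋₊) : ℝ) ^ 2 ≤
          1 / (4 * s) * ∑ x ∈ Ioc N (2 * N), ∑ a ∈ R x, (wt H (q b x + a) : ℝ) ^ 2 *
            (D x a).indicator (fun _ => (1 : ℝ)) α := mul_le_mul_of_nonneg_left hsq (by positivity)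
      have h5 : s * (κ * N) = c * lam / 48 * N := by
        rw [hκ]
        field_simp
      rw [Set.indicator_of_mem hα]
      by_cases hPα : α ∈ P
      · rw [Set.indicator_of_mem hPα]
        have hnl : (near b θ α H t N : ℝ) ≤ N := by
          have h6 : near b θ α H t N ≤ N := by
            unfold near
            refine (card_filter_le _ _).trans ?_
            rw [Nat.card_Ioc]
            omega
          exact_mod_cast h6
        have h7 : s * (near b θ α H t N : ℝ) ≤ s * N := mul_le_mul_of_nonneg_left hnl hs0.le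
        have h8 : 0 ≤ c * lam / 48 * N := by positivity
        linarith
      · have h1 : (near b θ α H t N : ℝ) < κ * N := by
          by_contra h2
          push Not at h2
          apply hPα
          rw [hP]
          exact ⟨h2, hα⟩
        have h7 : s * (near b θ α H t N : ℝ) ≤ c * lam / 48 * N := by
          rw [← h5]
          exact mul_le_mul_of_nonneg_left h1.le hs0.le
        linarith
    · have h0 : ∑ x ∈ Ioc N (2 * N), ∑ j ∈ Icc 1 H, (G x j).indicator (fun _ => (1 : ℝ)) α = 0 := by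
        apply sum_eq_zero
        intro x hx
        apply sum_eq_zero
        intro j hj
        apply Set.indicator_of_notMem
        intro h1
        exact hα (hGsub x hx j hj h1).1
      rw [h0]
      linarith
  rw [integral_finsetSum _ hI1x,
    integral_add hI23 hI4, integral_add hI2 hI3, integral_const_mul, integral_const_mul,
    integral_const_mul, (hint _ hIm hIf).2, (hint _ hPm hPf).2, hIr, integral_finsetSum _ hI4x] at key
  have hup : ∑ x ∈ Ioc N (2 * N), ∫ α, ∑ a ∈ R x, (wt H (q b x + a) : ℝ) ^ 2 *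
        (D x a).indicator (fun _ => (1 : ℝ)) α ≤ C * (lam + lam ^ 2) * Δ * N := by
    have h1 : ∀ x ∈ Ioc N (2 * N), ∫ α, ∑ a ∈ R x, (wt H (q b x + a) : ℝ) ^ 2 *
        (D x a).indicator (fun _ => (1 : ℝ)) α ≤ C * (lam + lam ^ 2) * Δ := by
      intro x hx
      have hx0 := hxpos x hx
      rw [integral_finsetSum _ fun a _ => (hint (D x a) (hDm x a) (hDf x a)).1.const_mul _]
      have h2 : ∀ a ∈ R x, ∫ α, (wt H (q b x + a) : ℝ) ^ 2 * (D x a).indicator (fun _ => (1 : ℝ)) α =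
          (wt H (q b x + a) : ℝ) ^ 2 * (1 / (x : ℝ) ^ θ) := by
        intro a _
        rw [integral_const_mul, (hint (D x a) (hDm x a) (hDf x a)).2, hDv x hx a]
      rw [sum_congr rfl h2, ← sum_mul]
      have h3 := hmom' N (by omega) x hx H hH1
      rw [← hΔ] at h3
      rw [hR]
      simp only
      rw [mul_one_div, div_le_iff₀ hx0]
      exact h3
    refine (sum_le_sum h1).trans (le_of_eq ?_)
    rw [sum_const, Nat.card_Ioc, nsmul_eq_mul]
    have : ((2 * N - N : ℕ) : ℝ) = N := by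
      congr 1
      omega
    rw [this]
    ring
  have hup' : 1 / (4 * s) * ∑ x ∈ Ioc N (2 * N), ∫ α, ∑ a ∈ R x, (wt H (q b x + a) : ℝ) ^ 2 *
        (D x a).indicator (fun _ => (1 : ℝ)) α ≤ c * lam / 48 * N * Δ := by
    refine (mul_le_mul_of_nonneg_left hup (by positivity)).trans (le_of_eq ?_)
    rw [hs]
    field_simp
    ring
  have hlow : c * lam / 8 * Δ * N ≤ ∑ x ∈ Ioc N (2 * N),
      ∫ α, ∑ j ∈ Icc 1 H, (G x j).indicator (fun _ => (1 : ℝ)) α := by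
    have h1 : ∀ x ∈ Ioc N (2 * N), (H : ℝ) * (((Row b θ β' γ x).card : ℝ) / (2 * (N : ℝ) ^ θ)) ≤
        ∫ α, ∑ j ∈ Icc 1 H, (G x j).indicator (fun _ => (1 : ℝ)) α := by
      intro x hx
      rw [integral_finsetSum _ fun j _ => (hint (G x j) (hGm x j) (hGf x hx j)).1]
      have h2 : ∀ j ∈ Icc 1 H, ((Row b θ β' γ x).card : ℝ) / (2 * (N : ℝ) ^ θ) ≤
          ∫ α, (G x j).indicator (fun _ => (1 : ℝ)) α := by
        intro j hj
        rw [(hint (G x j) (hGm x j) (hGf x hx j)).2]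
        have h3 := hjx x hx j hj
        have hs1 := hxpos x hx
        rw [mem_Ioc] at hx
        have hx0 : (0 : ℝ) < x := by exact_mod_cast (by omega : 0 < x)
        have hx2 : (x : ℝ) ≤ 2 * N := by exact_mod_cast hx.2
        rw [hG]
        simp only
        rw [vol_F hs1]
        have h4 : (j : ℝ) ≤ β' * (x : ℝ) ^ θ := by
          have h5 : 0 ≤ β * (x : ℝ) ^ θ := by positivity
          nlinarith
        have h5 := card_RowS b θ β' γ x j h4
        have h6 : (x : ℝ) ^ θ ≤ 2 * (N : ℝ) ^ θ := by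
          calc (x : ℝ) ^ θ ≤ (2 * (N : ℝ)) ^ θ := Real.rpow_le_rpow hx0.le hx2 (by linarith)
            _ = (2 : ℝ) ^ θ * (N : ℝ) ^ θ := Real.mul_rpow (by norm_num) hN0.le
            _ ≤ (2 : ℝ) ^ (1 : ℝ) * (N : ℝ) ^ θ := by
                apply mul_le_mul_of_nonneg_right _ hNθ.le
                exact Real.rpow_le_rpow_of_exponent_le (by norm_num) hθ1
            _ = 2 * (N : ℝ) ^ θ := by rw [Real.rpow_one]
        calc ((Row b θ β' γ x).card : ℝ) / (2 * (N : ℝ) ^ θ) ≤ ((Row b θ β' γ x).card : ℝ) / (x : ℝ) ^ θ :=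
              div_le_div_of_nonneg_left (Nat.cast_nonneg _) hs1 h6
          _ ≤ ((RowS b θ β' γ x j).card : ℝ) / (x : ℝ) ^ θ := div_le_div_of_nonneg_right h5 hs1.le
      refine le_trans (le_of_eq ?_) (sum_le_sum h2)
      rw [sum_const, Nat.card_Icc, nsmul_eq_mul]
      simp
    refine le_trans ?_ (sum_le_sum h1)
    rw [← mul_sum, ← sum_div]
    have h2 : c * (Δ / 2) * ((N : ℝ) * ((N : ℝ) ^ θ / Real.log N)) / (2 * (N : ℝ) ^ θ) ≤
        (∑ x ∈ Ioc N (2 * N), ((Row b θ β' γ x).card : ℝ)) / (2 * (N : ℝ) ^ θ) :=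
      div_le_div_of_nonneg_right hS (by positivity)
    calc c * lam / 8 * Δ * N = (lam * Real.log N / 2) *
          (c * (Δ / 2) * ((N : ℝ) * ((N : ℝ) ^ θ / Real.log N)) / (2 * (N : ℝ) ^ θ)) := by
          field_simp
          ring
      _ ≤ H * (c * (Δ / 2) * ((N : ℝ) * ((N : ℝ) ^ θ / Real.log N)) / (2 * (N : ℝ) ^ θ)) :=
          mul_le_mul_of_nonneg_right hH3 (by positivity)
      _ ≤ _ := mul_le_mul_of_nonneg_left h2 (by positivity)
  have hfin := hlow.trans key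
  have h1 : c * lam / 16 * Δ * N ≤ s * N * (volume P).toReal := by linarith
  have h2 : (c * lam / 16 * Δ) * N ≤ (s * (volume P).toReal) * N := by linarith
  have h3 := le_of_mul_le_mul_right h2 hN0
  have e : c ^ 2 / (192 * C) * (lam / (1 + lam)) * Δ = (c * lam / 16 * Δ) / s := by
    rw [hs]
    field_simp
    norm_num
  rw [e, div_le_iff₀ hs0]
  linarith

theorem near_mono (b : ℤ) (θ α : ℝ) {H H' : ℕ} (h : H ≤ H') {t t' : ℝ} (ht : t' ≤ t) (N : ℕ) :
    near b θ α H t N ≤ near b θ α H' t' N := by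
  unfold near
  apply card_le_card
  intro x hx
  rw [mem_filter] at hx ⊢
  have h1 : (wt H (q b x + ⌊α * (x : ℝ) ^ θ⌋₊) : ℝ) ≤ wt H' (q b x + ⌊α * (x : ℝ) ^ θ⌋₊) := by
    exact_mod_cast wt_mono h _
  exact ⟨hx.1, (ht.trans hx.2).trans h1⟩

/-- **many good scales, for almost all `α`** -/
theorem densT (b : ℤ) (hb : b = 0 ∨ b = -1) (θ : ℝ) (hθ : 7 / 10 < θ) (hθ1 : θ ≤ 1) :
    ∃ κ τ δ : ℝ, 0 < κ ∧ 0 < τ ∧ 0 < δ ∧
    ∀ u : ℕ → ℕ, StrictMono u →
    ∀ᵐ α : ℝ, α ∈ Set.Ioo (0 : ℝ) 1 → ∀ lam : ℝ, 0 < lam → ∃ᶠ K : ℕ in atTop,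
      δ * (lam / (1 + lam)) * K ≤ (((range K).filter (fun k : ℕ =>
        κ * (lam / (1 + lam)) * (u k : ℝ) ≤
          (near b θ α ⌊lam * Real.log (u k)⌋₊ (max 1 (τ * lam)) (u k) : ℝ))).card : ℝ) := by
  classical
  obtain ⟨κ, τ, c₃, hκ, hτ, hc₃, h⟩ := lowT b hb θ hθ hθ1
  refine ⟨κ / 2, τ / 2, c₃ / 4, by positivity, by positivity, by positivity, fun u hu => ?_⟩
  -- one `lam`
  have hone : ∀ lam : ℝ, 0 < lam → ∀ᵐ α : ℝ, α ∈ Set.Ioo (0 : ℝ) 1 → ∃ᶠ K : ℕ in atTop,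
      c₃ * (lam / (1 + lam)) / 2 * K ≤ (((range K).filter (fun k : ℕ =>
        κ * (lam / (1 + lam)) * (u k : ℝ) ≤
          (near b θ α ⌊lam * Real.log (u k)⌋₊ (max 1 (τ * lam)) (u k) : ℝ))).card : ℝ) := by
    intro lam hlam
    obtain ⟨c₄, hc₄⟩ : ∃ c₄ : ℝ, c₄ = c₃ * (lam / (1 + lam)) := ⟨_, rfl⟩
    have hc40 : 0 < c₄ := by rw [hc₄]; positivity
    rw [← hc₄]
    obtain ⟨G, hG⟩ : ∃ G : ℕ → Set ℝ, G = fun k : ℕ =>
        {α : ℝ | κ * (lam / (1 + lam)) * (u k : ℝ) ≤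
          (near b θ α ⌊lam * Real.log (u k)⌋₊ (max 1 (τ * lam)) (u k) : ℝ)} := ⟨_, rfl⟩
    have hGm : ∀ k, MeasurableSet (G k) := by
      intro k
      rw [hG]
      exact measurableSet_le measurable_const (near_meas b θ _ _ (u k))
    have h1 := io (fun K : ℕ => {α : ℝ | c₄ / 2 * K ≤ hits G K α})
      (fun K => measurableSet_le measurable_const (hits_meas G hGm K)) (c₄ / 4) (by positivity)
      (fun β γ hβ hβγ hγ => by
        obtain ⟨N₀, hN₀⟩ := h lam hlam β γ hβ hβγ hγ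
        refine ⟨4 * N₀ + 1, fun K hK => ?_⟩
        refine many G hGm c₄ hc40 β γ hβγ N₀ (fun k hk => ?_) K hK
        have h2 := hN₀ (u k) (hk.trans hu.le_apply)
        rw [← hc₄] at h2
        rw [hG]
        exact h2)
    filter_upwards [h1] with α hα h01
    refine (hα h01).mono fun K hK => ?_
    have h2 : c₄ / 2 * K ≤ hits G K α := hK
    refine h2.trans (le_of_eq ?_)
    unfold hits
    rw [card_filter]
    push_cast
    apply sum_congr rfl
    intro k _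
    have h4 : α ∈ G k ↔ κ * (lam / (1 + lam)) * (u k : ℝ) ≤
        (near b θ α ⌊lam * Real.log (u k)⌋₊ (max 1 (τ * lam)) (u k) : ℝ) := by
      rw [hG]
      exact Iff.rfl
    by_cases h3 : α ∈ G k
    · rw [Set.indicator_of_mem h3, if_pos (h4.1 h3)]
    · rw [Set.indicator_of_notMem h3, if_neg (fun h5 => h3 (h4.2 h5))]
  have hall : ∀ᵐ α : ℝ, ∀ n : ℤ, α ∈ Set.Ioo (0 : ℝ) 1 → ∃ᶠ K : ℕ in atTop,
      c₃ * ((2 : ℝ) ^ n / (1 + (2 : ℝ) ^ n)) / 2 * K ≤ (((range K).filter (fun k : ℕ =>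
        κ * ((2 : ℝ) ^ n / (1 + (2 : ℝ) ^ n)) * (u k : ℝ) ≤
          (near b θ α ⌊(2 : ℝ) ^ n * Real.log (u k)⌋₊ (max 1 (τ * (2 : ℝ) ^ n)) (u k) : ℝ))).card : ℝ) :=
    ae_all_iff.2 fun n => hone _ (by positivity)
  filter_upwards [hall] with α hα h01 lam hlam
  obtain ⟨n, hn1, hn2⟩ := exists_mem_Ico_zpow hlam (show (1 : ℝ) < 2 by norm_num)
  have h2 : (0 : ℝ) < (2 : ℝ) ^ n := by positivity
  have h3 : lam < 2 * (2 : ℝ) ^ n := by
    rw [zpow_add_one₀ (by norm_num)] at hn2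
    linarith
  have hll : lam / (1 + lam) ≤ 2 * ((2 : ℝ) ^ n / (1 + (2 : ℝ) ^ n)) := by
    rw [mul_div_assoc', div_le_div_iff₀ (by positivity) (by positivity)]
    nlinarith
  refine (hα n h01).mono fun K hK => ?_
  have hδ : c₃ / 4 * (lam / (1 + lam)) * K ≤ c₃ * ((2 : ℝ) ^ n / (1 + (2 : ℝ) ^ n)) / 2 * K := by
    apply mul_le_mul_of_nonneg_right _ (Nat.cast_nonneg _)
    calc c₃ / 4 * (lam / (1 + lam)) ≤ c₃ / 4 * (2 * ((2 : ℝ) ^ n / (1 + (2 : ℝ) ^ n))) :=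
          mul_le_mul_of_nonneg_left hll (by positivity)
      _ = _ := by ring
  refine (hδ.trans hK).trans ?_
  have hsub : ((range K).filter (fun k : ℕ =>
        κ * ((2 : ℝ) ^ n / (1 + (2 : ℝ) ^ n)) * (u k : ℝ) ≤
          (near b θ α ⌊(2 : ℝ) ^ n * Real.log (u k)⌋₊ (max 1 (τ * (2 : ℝ) ^ n)) (u k) : ℝ))) ⊆
      ((range K).filter (fun k : ℕ =>
        κ / 2 * (lam / (1 + lam)) * (u k : ℝ) ≤
          (near b θ α ⌊lam * Real.log (u k)⌋₊ (max 1 (τ / 2 * lam)) (u k) : ℝ))) := by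
    intro k hk
    rw [mem_filter] at hk ⊢
    refine ⟨hk.1, ?_⟩
    have h1 : near b θ α ⌊(2 : ℝ) ^ n * Real.log (u k)⌋₊ (max 1 (τ * (2 : ℝ) ^ n)) (u k) ≤
        near b θ α ⌊lam * Real.log (u k)⌋₊ (max 1 (τ / 2 * lam)) (u k) := by
      apply near_mono
      · apply Nat.floor_le_floor
        exact mul_le_mul_of_nonneg_right hn1 (Real.log_natCast_nonneg _)
      · apply max_le_max le_rfl
        nlinarith
    have h1' : (near b θ α ⌊(2 : ℝ) ^ n * Real.log (u k)⌋₊ (max 1 (τ * (2 : ℝ) ^ n)) (u k) : ℝ) ≤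
        near b θ α ⌊lam * Real.log (u k)⌋₊ (max 1 (τ / 2 * lam)) (u k) := by
      exact_mod_cast h1
    refine le_trans ?_ (hk.2.trans h1')
    apply mul_le_mul_of_nonneg_right _ (Nat.cast_nonneg _)
    calc κ / 2 * (lam / (1 + lam)) ≤ κ / 2 * (2 * ((2 : ℝ) ^ n / (1 + (2 : ℝ) ^ n))) :=
          mul_le_mul_of_nonneg_left hll (by positivity)
      _ = _ := by ring
  exact_mod_cast card_le_card hsub

end Pool.Agent.P8H13.NT
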