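import Mathlib
import Pool.Agent.P8H13.NT.Top
import Pool.Agent.P8H13.NQ.Fin

/-!
# Primes just above `x² + α x^θ`: the final form (helper13)
-/

set_option autoImplicit false

namespace Pool.Agent.P8H13.NT

open Finset Filter Topology MeasureTheory
open Pool.Agent.P8H13.OP (q q_cast)
open Pool.Agent.P8H13.NP (wt)
open Pool.Agent.P8H13.NQ (pri fin_pri)

/-- the number of the `x ∈ (N, 2 N]` with at least `t` primes in
`(q b x + α x^θ, q b x + α x^θ + lam log x]` -/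
noncomputable def Nr (b : ℤ) (θ α lam t : ℝ) (N : ℕ) : ℕ :=
  ((Ioc N (2 * N)).filter (fun x : ℕ =>
    t ≤ (pri ((q b x : ℝ) + α * (x : ℝ) ^ θ) (lam * Real.log x) : ℝ))).card

theorem near_le_Nr (b : ℤ) (θ α : ℝ) (hα : 0 ≤ α) (lam : ℝ) (hlam : 0 < lam) (t : ℝ) (N : ℕ) (hN : 1 ≤ N) :
    near b θ α ⌊lam * Real.log N⌋₊ t N ≤ Nr b θ α lam t N := by
  classical
  unfold near Nr
  apply card_le_card
  intro x hx
  rw [mem_filter, mem_Ioc] at hx
  rw [mem_filter, mem_Ioc]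
  refine ⟨hx.1, hx.2.trans ?_⟩
  have hNr : (1 : ℝ) ≤ N := by exact_mod_cast hN
  have hNx : (N : ℝ) ≤ x := by exact_mod_cast hx.1.1.le
  have hlN : 0 ≤ Real.log N := Real.log_nonneg hNr
  have hlx : Real.log N ≤ Real.log x := Real.log_le_log (by linarith) hNx
  have h3 : lam * Real.log N ≤ lam * Real.log x := mul_le_mul_of_nonneg_left hlx hlam.le
  have hxθ : 0 ≤ (x : ℝ) ^ θ := Real.rpow_nonneg (by linarith) _
  have h4 : (⌊α * (x : ℝ) ^ θ⌋₊ : ℝ) ≤ α * (x : ℝ) ^ θ := Nat.floor_le (by positivity)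
  have h5 : α * (x : ℝ) ^ θ < (⌊α * (x : ℝ) ^ θ⌋₊ : ℝ) + 1 := Nat.lt_floor_add_one _
  have hkey : wt ⌊lam * Real.log N⌋₊ (q b x + ⌊α * (x : ℝ) ^ θ⌋₊) ≤
      pri ((q b x : ℝ) + α * (x : ℝ) ^ θ) (lam * Real.log x) := by
    unfold wt pri
    obtain ⟨A, hA⟩ : ∃ A : Finset ℕ, A = (Icc 1 ⌊lam * Real.log N⌋₊).filter
      (fun j => (q b x + ⌊α * (x : ℝ) ^ θ⌋₊ + j).Prime) := ⟨_, rfl⟩
    rw [← hA, ← card_image_of_injective A (f := fun j => q b x + ⌊α * (x : ℝ) ^ θ⌋₊ + j)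
      (add_right_injective _), ← Set.ncard_coe_finset]
    apply Set.ncard_le_ncard _ (fin_pri _ _)
    intro p hp
    rw [Finset.mem_coe, mem_image] at hp
    obtain ⟨j, hj, rfl⟩ := hp
    rw [hA, mem_filter, mem_Icc] at hj
    obtain ⟨⟨hj1, hj2⟩, hj3⟩ := hj
    have h2 : (j : ℝ) ≤ lam * Real.log N := by
      have h3 : (j : ℝ) ≤ (⌊lam * Real.log N⌋₊ : ℝ) := by exact_mod_cast hj2
      exact h3.trans (Nat.floor_le (by positivity))
    have h6 : (1 : ℝ) ≤ j := by exact_mod_cast hj1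
    refine ⟨hj3, ?_, ?_⟩
    · push_cast
      linarith
    · push_cast
      linarith
  exact_mod_cast hkey

end Pool.Agent.P8H13.NT
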